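import Pool.Agent.Helper13.JS.St

/-!
# Project JS (MP_924f75_nt): module EK (bounded mass gives positive density)
-/

set_option autoImplicit false

namespace Pool.Agent.Helper26.JS

open Finset ArithmeticFunction Pool.Agent.Helper13.JS

theorem ms_add (E : Finset ℕ) (u v w : ℝ) (huv : u ≤ v) (hvw : v ≤ w) :
    ms E u v + ms E v w ≤ ms E u w := by
  classical
  unfold ms
  rw [Finset.sum_filter, Finset.sum_filter, Finset.sum_filter, ← Finset.sum_add_distrib]
  apply Finset.sum_le_sum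
  intro p _
  have hp : (0 : ℝ) ≤ 1 / (p : ℝ) := by positivity
  by_cases h1 : u < (p : ℝ) ∧ (p : ℝ) ≤ v
  · have h2 : ¬ (v < (p : ℝ) ∧ (p : ℝ) ≤ w) := fun h => absurd h.1 (not_lt.mpr h1.2)
    have h3 : u < (p : ℝ) ∧ (p : ℝ) ≤ w := ⟨h1.1, h1.2.trans hvw⟩
    rw [if_pos h1, if_neg h2, if_pos h3]; linarith
  · rw [if_neg h1]
    by_cases h2 : v < (p : ℝ) ∧ (p : ℝ) ≤ w
    · have h3 : u < (p : ℝ) ∧ (p : ℝ) ≤ w := ⟨lt_of_le_of_lt huv h2.1, h2.2⟩
      rw [if_pos h2, if_pos h3]; linarith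
    · rw [if_neg h2]
      by_cases h3 : u < (p : ℝ) ∧ (p : ℝ) ≤ w
      · rw [if_pos h3]; linarith
      · rw [if_neg h3]; linarith

theorem ms_nonneg (E : Finset ℕ) (u v : ℝ) : 0 ≤ ms E u v := by
  unfold ms
  exact Finset.sum_nonneg fun p _ => by positivity

theorem ms_sum (E : Finset ℕ) (u : ℕ → ℝ) (hu : ∀ i, u (i + 1) ≤ u i) (I : ℕ) :
    ∑ i ∈ Finset.range I, ms E (u (i + 1)) (u i) ≤ ms E (u I) (u 0) := by
  have hmono : ∀ n, u n ≤ u 0 := by
    intro n
    induction n with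
    | zero => exact le_rfl
    | succ n ih => exact (hu n).trans ih
  induction I with
  | zero => simpa using ms_nonneg E (u 0) (u 0)
  | succ I ih =>
    rw [Finset.sum_range_succ]
    have := ms_add E (u (I + 1)) (u I) (u 0) (hu I) (hmono I)
    linarith

theorem exp_aux (t : ℝ) (h0 : 0 ≤ t) (h1 : t ≤ 1 / 2) : Real.exp (-(2 * t)) ≤ 1 - t := by
  rw [Real.exp_neg]
  have h2 : 1 + 2 * t ≤ Real.exp (2 * t) := by
    have := Real.add_one_le_exp (2 * t)
    linarith
  have h3 : (Real.exp (2 * t))⁻¹ ≤ (1 + 2 * t)⁻¹ := by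
    apply inv_anti₀ (by linarith) h2
  refine h3.trans ?_
  rw [inv_le_iff_one_le_mul₀ (by linarith)]
  nlinarith

theorem PE_ge (E : Finset ℕ) (N : ℕ) (hE : ∀ p ∈ E, p.Prime) :
    Real.exp (-(2 * ms E 0 N)) ≤ PE E N := by
  classical
  have h1 : ms E 0 N = ∑ p ∈ E.filter (· ≤ N), 1 / (p : ℝ) := by
    unfold ms
    apply Finset.sum_congr _ (fun _ _ => rfl)
    apply Finset.filter_congr
    intro p hp
    have h2 : (0 : ℝ) < (p : ℝ) := by exact_mod_cast (hE p hp).pos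
    constructor
    · intro h; exact_mod_cast h.2
    · intro h; exact ⟨h2, by exact_mod_cast h⟩
  rw [h1]
  unfold PE
  have h3 : -(2 * ∑ p ∈ E.filter (· ≤ N), 1 / (p : ℝ))
      = ∑ p ∈ E.filter (· ≤ N), -(2 * (1 / (p : ℝ))) := by
    rw [Finset.sum_neg_distrib, Finset.mul_sum]
  rw [h3, Real.exp_sum]
  apply Finset.prod_le_prod
  · intro p _; exact (Real.exp_pos _).le
  · intro p hp
    have h4 : p.Prime := hE p (Finset.mem_of_mem_filter p hp)
    apply exp_aux
    · positivity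
    · have h5 : (2 : ℝ) ≤ (p : ℝ) := by exact_mod_cast h4.two_le
      exact one_div_le_one_div_of_le (by norm_num) h5

theorem Fr_ge_one (E : Finset ℕ) (N : ℕ) (hE : ∀ p ∈ E, p.Prime) (hN : 1 ≤ N) : 1 ≤ Fr E N := by
  classical
  unfold Fr
  apply Finset.card_pos.mpr
  refine ⟨1, ?_⟩
  rw [Finset.mem_filter, Finset.mem_Icc]
  refine ⟨⟨le_rfl, hN⟩, ?_⟩
  intro p hp h
  have := Nat.dvd_one.mp h
  exact (hE p hp).one_lt.ne' this

theorem hEK (hEF : StEF) : StEK := by
  intro K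
  obtain ⟨η, ε₀, hη, hη1, hε, hmain⟩ := hEF
  set Kp : ℝ := max K 1 with hKp
  have hKp1 : 1 ≤ Kp := le_max_right _ _
  have hKpK : K ≤ Kp := le_max_left _ _
  set I : ℕ := ⌈Kp / ε₀⌉₊ + 1 with hI
  have hI1 : Kp / ε₀ ≤ (I : ℝ) := by
    rw [hI]
    push_cast
    have := Nat.le_ceil (Kp / ε₀)
    linarith
  have hIpos : 0 < I := by omega
  have hη1' : η ≤ 1 := by linarith
  obtain ⟨c₁, N₀, hc₁, hN₀, hc⟩ := hmain (η ^ I) (by positivity) (pow_le_one₀ hη.le hη1')
  refine ⟨min (c₁ * Real.exp (-(2 * Kp))) (1 / N₀), by positivity, ?_⟩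
  intro E N hE hN hK
  have hNr : (1 : ℝ) ≤ (N : ℝ) := by exact_mod_cast hN
  by_cases hcase : N₀ ≤ (N : ℝ)
  · -- the main case
    set u : ℕ → ℝ := fun i => (N : ℝ) ^ (η ^ i) with hu
    have hu_dec : ∀ i, u (i + 1) ≤ u i := by
      intro i
      apply Real.rpow_le_rpow_of_exponent_le hNr
      exact pow_le_pow_of_le_one hη.le hη1' (Nat.le_succ i)
    have hu0 : u 0 = (N : ℝ) := by simp [hu]
    have huI : 0 ≤ u I := by positivity
    have hu_le : ∀ n, u n ≤ u 0 := by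
      intro n
      induction n with
      | zero => exact le_rfl
      | succ n ih => exact (hu_dec n).trans ih
    have hsum := ms_sum E u hu_dec I
    have hle : ms E (u I) (u 0) ≤ ms E 0 N := by
      have h1 := ms_add E 0 (u I) (u 0) huI (hu_le I)
      have h2 := ms_nonneg E 0 (u I)
      rw [hu0] at h1 ⊢
      linarith
    have hexists : ∃ i ∈ Finset.range I, ms E (u (i + 1)) (u i) ≤ ε₀ := by
      by_contra hcon
      push Not at hcon
      have h1 : ∑ i ∈ Finset.range I, ε₀ < ∑ i ∈ Finset.range I, ms E (u (i + 1)) (u i) :=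
        Finset.sum_lt_sum_of_nonempty ⟨0, Finset.mem_range.mpr hIpos⟩ hcon
      rw [Finset.sum_const, Finset.card_range, nsmul_eq_mul] at h1
      have h2 : Kp ≤ (I : ℝ) * ε₀ := by
        rw [div_le_iff₀ hε] at hI1
        exact hI1
      linarith
    obtain ⟨i, hiI, hi⟩ := hexists
    have hiI' : i < I := Finset.mem_range.mp hiI
    have h1 := hc E N (u i) hE hcase
      (Real.rpow_le_rpow_of_exponent_le hNr (pow_le_pow_of_le_one hη.le hη1' hiI'.le))
      (by rw [← hu0]; exact hu_le i)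
      (by
        have h2 : u i ^ η = u (i + 1) := by
          show ((N : ℝ) ^ (η ^ i)) ^ η = (N : ℝ) ^ (η ^ (i + 1))
          rw [← Real.rpow_mul (by positivity), pow_succ]
        rw [h2]; exact hi)
    have h3 : Real.exp (-(2 * Kp)) ≤ PE E N := by
      refine le_trans ?_ (PE_ge E N hE)
      apply Real.exp_le_exp.mpr
      linarith
    calc min (c₁ * Real.exp (-(2 * Kp))) (1 / N₀) * (N : ℝ)
        ≤ c₁ * Real.exp (-(2 * Kp)) * (N : ℝ) :=
          mul_le_mul_of_nonneg_right (min_le_left _ _) (by positivity)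
      _ = c₁ * (N : ℝ) * Real.exp (-(2 * Kp)) := by ring
      _ ≤ c₁ * (N : ℝ) * PE E N := mul_le_mul_of_nonneg_left h3 (by positivity)
      _ ≤ (Fr E N : ℝ) := h1
  · have h1 : (1 : ℝ) ≤ (Fr E N : ℝ) := by exact_mod_cast Fr_ge_one E N hE hN
    have hN₀' : 0 < N₀ := by linarith
    calc min (c₁ * Real.exp (-(2 * Kp))) (1 / N₀) * (N : ℝ)
        ≤ 1 / N₀ * (N : ℝ) := mul_le_mul_of_nonneg_right (min_le_right _ _) (by positivity)
      _ ≤ 1 / N₀ * N₀ := mul_le_mul_of_nonneg_left (not_le.mp hcase).le (by positivity)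
      _ = 1 := by field_simp
      _ ≤ (Fr E N : ℝ) := h1

end Pool.Agent.Helper26.JS
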